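import Pool.Agent.N841.WS.Stm

set_option autoImplicit false

/-!
# Project WS, part SEP: separating characters of a compact group give the topology
-/

open Cardinal Topology TopologicalSpace Set Filter

namespace Pool.Agent.N385.WS

open Pool.Agent.N841.WS

lemma exists_low {α : Type} (T : Finset α) (r : α → ℝ) (h : ∀ x ∈ T, 0 < r x) :
    ∃ ε : ℝ, 0 < ε ∧ ∀ x ∈ T, ε ≤ r x := by
  classical
  induction T using Finset.induction_on with
  | empty => exact ⟨1, one_pos, fun x hx => absurd hx (Finset.notMem_empty x)⟩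
  | insert a s ha ih =>
    obtain ⟨ε, h0, h1⟩ := ih fun x hx => h x (Finset.mem_insert_of_mem hx)
    refine ⟨min ε (r a), lt_min h0 (h a (Finset.mem_insert_self a s)), fun x hx => ?_⟩
    rcases Finset.mem_insert.1 hx with rfl | hx
    · exact min_le_right _ _
    · exact (min_le_left _ _).trans (h1 x hx)

theorem t_SEP : S_SEP := by
  classical
  intro G _ _ _ _ _ Y hY U hU
  obtain ⟨V, hVU, hVo, h0⟩ := mem_nhds_iff.1 hU
  haveI : Nonempty (Ch G) := ⟨⟨fun _ => 1, continuous_const, fun _ _ => by simp⟩⟩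
  choose! c hcY hc using hY
  have hK : IsCompact Vᶜ := hVo.isClosed_compl.isCompact
  have hne : ∀ x ∈ Vᶜ, x ≠ 0 := by
    rintro x hx rfl
    exact hx h0
  let r : G → ℝ := fun x => dist ((c x).1 x) 1 / 2
  have hr : ∀ x ∈ Vᶜ, 0 < r x := fun x hx => half_pos (dist_pos.2 (hc x (hne x hx)))
  let O : G → Set G := fun x => {y | r x < dist ((c x).1 y) 1}
  have hO : ∀ x ∈ Vᶜ, O x ∈ 𝓝 x := by
    intro x hx
    have ho : IsOpen (O x) :=
      isOpen_lt continuous_const ((c x).2.1.dist continuous_const)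
    refine ho.mem_nhds ?_
    have := hr x hx
    show dist ((c x).1 x) 1 / 2 < dist ((c x).1 x) 1
    have h2 : 0 < dist ((c x).1 x) 1 / 2 := this
    linarith
  obtain ⟨T, hT, hcov⟩ := hK.elim_nhds_subcover O hO
  obtain ⟨ε, hε, hεr⟩ := exists_low T r fun x hx => hr x (hT x hx)
  refine ⟨T.image c, ?_, ε, hε, ?_⟩
  · intro χ hχ
    obtain ⟨x, hx, rfl⟩ := Finset.mem_image.1 hχ
    exact hcY x (hne x (hT x hx))
  · intro y hy
    apply hVU
    by_contra hyV
    obtain ⟨x, hx, hyx⟩ := Set.mem_iUnion₂.1 (hcov hyV)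
    have h1 := hy (c x) (Finset.mem_image_of_mem c hx)
    have h2 : r x < dist ((c x).1 y) 1 := hyx
    have h3 := hεr x hx
    linarith

end Pool.Agent.N385.WS
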